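import Mathlib

/-!
# Commuting real matrix tuples with every non-zero vector hypercyclic (MP_336050_an, Q1)

For `n ≥ 3` there is no tuple (of any finite length, in particular of length `n`) of pairwise
commuting real `n × n` matrices all of whose non-zero vectors are hypercyclic: a commuting family
of real matrices has a common invariant subspace of dimension `1` or `2`, and the orbit of a vector
of such a subspace stays in it.
-/

namespace Pool.Agent.Results.MP_336050_an.NoMinimalTuple

open Matrix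

/-- The orbit of `x` under the tuple `(A 0, …, A (m-1))`: all vectors
`A 0 ^ k 0 * A 1 ^ k 1 * ⋯ * A (m-1) ^ k (m-1) * x` with natural exponents. -/
def orbit {n m : ℕ} (A : Fin m → Matrix (Fin n) (Fin n) ℝ) (x : Fin n → ℝ) : Set (Fin n → ℝ) :=
  {y | ∃ k : Fin m → ℕ, y = (List.ofFn fun i => A i ^ k i).prod *ᵥ x}

/-- a common eigenvector of a commuting family of complex matrices -/
theorem exists_common_eigenvector {n m : ℕ} (hn : 0 < n)
    (B : Fin m → Matrix (Fin n) (Fin n) ℂ) (hB : ∀ i j, B i * B j = B j * B i) :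
    ∃ (v : Fin n → ℂ) (μ : Fin m → ℂ), v ≠ 0 ∧ ∀ i, B i *ᵥ v = μ i • v := by
  classical
  let T : Fin m → Module.End ℂ (Fin n → ℂ) := fun i => Matrix.toLin' (B i)
  have hT : ∀ i j, T i * T j = T j * T i := by
    intro i j
    show Matrix.toLin' (B i) * Matrix.toLin' (B j) = Matrix.toLin' (B j) * Matrix.toLin' (B i)
    rw [Module.End.mul_eq_comp, Module.End.mul_eq_comp, ← Matrix.toLin'_mul,
      ← Matrix.toLin'_mul, hB i j]
  -- a nonzero invariant subspace of minimal dimension
  let P : ℕ → Prop := fun d => ∃ W : Submodule ℂ (Fin n → ℂ), Module.finrank ℂ W = d ∧ W ≠ ⊥ ∧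
    ∀ i, ∀ w ∈ W, T i w ∈ W
  have hP : ∃ d, P d := by
    refine ⟨_, ⊤, rfl, ?_, fun i w _ => Submodule.mem_top⟩
    intro h
    have : Nonempty (Fin n) := ⟨⟨0, hn⟩⟩
    exact top_ne_bot h
  obtain ⟨W, hWd, hW0, hWinv⟩ := Nat.find_spec hP
  have hmin : ∀ W' : Submodule ℂ (Fin n → ℂ), W' ≤ W → W' ≠ ⊥ → (∀ i, ∀ w ∈ W', T i w ∈ W') →
      W' = W := by
    intro W' hle h0 hinv
    refine Submodule.eq_of_le_of_finrank_le hle ?_
    rw [hWd]
    exact Nat.find_min' hP ⟨W', rfl, h0, hinv⟩
  obtain ⟨v, hv, hv0⟩ := Submodule.exists_mem_ne_zero_of_ne_bot hW0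
  have : Nontrivial W := Submodule.nontrivial_iff_ne_bot.2 hW0
  have hscal : ∀ i, ∃ c : ℂ, ∀ w ∈ W, T i w = c • w := by
    intro i
    obtain ⟨c, hc⟩ := Module.End.exists_eigenvalue ((T i).restrict (hWinv i))
    obtain ⟨w, hw⟩ := hc.exists_hasEigenvector
    have hw1 : T i w = c • (w : Fin n → ℂ) := by
      have := congrArg Subtype.val hw.apply_eq_smul
      simpa using this
    have hw2 : (w : Fin n → ℂ) ≠ 0 := fun h => hw.2 (Subtype.ext h)
    let W' : Submodule ℂ (Fin n → ℂ) := W ⊓ Module.End.eigenspace (T i) c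
    have h1 : W' = W := by
      refine hmin W' inf_le_left ?_ ?_
      · intro h
        have : (w : Fin n → ℂ) ∈ W' := ⟨w.2, Module.End.mem_eigenspace_iff.2 hw1⟩
        rw [h] at this
        exact hw2 ((Submodule.mem_bot ℂ).1 this)
      · rintro j u ⟨hu, hu'⟩
        refine ⟨hWinv j u hu, ?_⟩
        rw [SetLike.mem_coe, Module.End.mem_eigenspace_iff] at hu' ⊢
        have h2 : T i (T j u) = T j (T i u) := by
          have := congrArg (fun S : Module.End ℂ (Fin n → ℂ) => S u) (hT i j)
          exact this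
        rw [h2, hu', map_smul]
    refine ⟨c, fun u hu => ?_⟩
    rw [← h1] at hu
    exact Module.End.mem_eigenspace_iff.1 hu.2
  choose c hc using hscal
  refine ⟨v, c, hv0, fun i => ?_⟩
  have := hc i v hv
  rwa [Matrix.toLin'_apply] at this

/-- a common invariant subspace spanned by two vectors -/
theorem exists_invariant_plane {n m : ℕ} (hn : 0 < n)
    (A : Fin m → Matrix (Fin n) (Fin n) ℝ) (hA : ∀ i j, A i * A j = A j * A i) :
    ∃ a b : Fin n → ℝ, a ≠ 0 ∧
      ∀ i, ∀ x ∈ Submodule.span ℝ {a, b}, A i *ᵥ x ∈ Submodule.span ℝ {a, b} := by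
  obtain ⟨v, μ, hv, hμ⟩ := exists_common_eigenvector hn
    (fun i => (A i).map (algebraMap ℝ ℂ)) (fun i j => by
      rw [← Matrix.map_mul, hA i j, Matrix.map_mul])
  set a : Fin n → ℝ := fun j => (v j).re with ha
  set b : Fin n → ℝ := fun j => (v j).im with hb
  have hcoord : ∀ i j, ((A i).map (algebraMap ℝ ℂ) *ᵥ v) j = μ i * v j := by
    intro i j
    rw [hμ i]
    rfl
  have hre : ∀ i, A i *ᵥ a = (μ i).re • a - (μ i).im • b := by
    intro i
    ext j
    have h1 := congrArg Complex.re (hcoord i j)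
    simp only [Matrix.mulVec, dotProduct, Matrix.map_apply, Complex.re_sum, Complex.mul_re,
      Complex.coe_algebraMap, Complex.ofReal_re, Complex.ofReal_im, zero_mul, sub_zero] at h1
    simp only [Matrix.mulVec, dotProduct, Pi.sub_apply, Pi.smul_apply, smul_eq_mul, ha, hb]
    exact h1
  have him : ∀ i, A i *ᵥ b = (μ i).im • a + (μ i).re • b := by
    intro i
    ext j
    have h1 := congrArg Complex.im (hcoord i j)
    simp only [Matrix.mulVec, dotProduct, Matrix.map_apply, Complex.im_sum, Complex.mul_im,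
      Complex.coe_algebraMap, Complex.ofReal_re, Complex.ofReal_im, zero_mul, add_zero] at h1
    simp only [Matrix.mulVec, dotProduct, Pi.add_apply, Pi.smul_apply, smul_eq_mul, ha, hb]
    rw [h1]
    ring
  have hinv : ∀ i, ∀ x ∈ Submodule.span ℝ {a, b}, A i *ᵥ x ∈ Submodule.span ℝ {a, b} := by
    intro i x hx
    obtain ⟨s, t, rfl⟩ := Submodule.mem_span_pair.1 hx
    rw [Matrix.mulVec_add, Matrix.mulVec_smul, Matrix.mulVec_smul, hre, him]
    have h1 : a ∈ Submodule.span ℝ {a, b} := Submodule.subset_span (by simp)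
    have h2 : b ∈ Submodule.span ℝ {a, b} := Submodule.subset_span (by simp)
    exact Submodule.add_mem _
      (Submodule.smul_mem _ _ (Submodule.sub_mem _ (Submodule.smul_mem _ _ h1)
        (Submodule.smul_mem _ _ h2)))
      (Submodule.smul_mem _ _ (Submodule.add_mem _ (Submodule.smul_mem _ _ h1)
        (Submodule.smul_mem _ _ h2)))
  by_cases h0 : a = 0
  · refine ⟨b, a, ?_, ?_⟩
    · intro hb0
      apply hv
      ext j
      apply Complex.ext
      · exact congrFun h0 j
      · exact congrFun hb0 j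
    · rw [Set.pair_comm]
      exact hinv
  · exact ⟨a, b, h0, hinv⟩

/-- **MP_336050_an, Q1 (no, for every `n ≥ 3`).**  For every `n ≥ 3`, every `m` and every
`m`-tuple (in particular every `n`-tuple) of pairwise commuting real `n × n` matrices there is a
non-zero vector whose orbit is not dense. -/
theorem result (n : ℕ) (hn : 3 ≤ n) (m : ℕ) (A : Fin m → Matrix (Fin n) (Fin n) ℝ)
    (hA : ∀ i j, A i * A j = A j * A i) :
    ∃ x : Fin n → ℝ, x ≠ 0 ∧ ¬ Dense (orbit A x) := by
  obtain ⟨a, b, ha, hinv⟩ := exists_invariant_plane (by omega) A hA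
  refine ⟨a, ha, fun hd => ?_⟩
  set W : Submodule ℝ (Fin n → ℝ) := Submodule.span ℝ {a, b} with hW
  have hpow : ∀ (i : Fin m) (k : ℕ), ∀ x ∈ W, (A i ^ k) *ᵥ x ∈ W := by
    intro i k
    induction k with
    | zero =>
      intro x hx
      rw [pow_zero, Matrix.one_mulVec]
      exact hx
    | succ k ih =>
      intro x hx
      rw [pow_succ, ← Matrix.mulVec_mulVec]
      exact ih _ (hinv i x hx)
  have hprod : ∀ (L : List (Matrix (Fin n) (Fin n) ℝ)),
      (∀ M ∈ L, ∀ x ∈ W, M *ᵥ x ∈ W) → ∀ x ∈ W, L.prod *ᵥ x ∈ W := by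
    intro L
    induction L with
    | nil =>
      intro _ x hx
      rw [List.prod_nil, Matrix.one_mulVec]
      exact hx
    | cons M L ih =>
      intro h x hx
      rw [List.prod_cons, ← Matrix.mulVec_mulVec]
      exact h M (by simp) _ (ih (fun N hN => h N (by simp [hN])) x hx)
  have hsub : orbit A a ⊆ (W : Set (Fin n → ℝ)) := by
    rintro y ⟨k, rfl⟩
    refine hprod _ ?_ a (Submodule.subset_span (by simp))
    intro M hM
    obtain ⟨i, rfl⟩ := (List.mem_ofFn' _ _).1 hM
    exact hpow i (k i)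
  have hclosed : IsClosed (W : Set (Fin n → ℝ)) := W.closed_of_finiteDimensional
  have htop : W = ⊤ := by
    rw [Submodule.eq_top_iff']
    intro x
    exact closure_minimal hsub hclosed (hd x)
  have h1 : Module.finrank ℝ W ≤ 2 := by
    classical
    have h2 := finrank_span_finset_le_card (R := ℝ) ({a, b} : Finset (Fin n → ℝ))
    rw [Finset.coe_pair] at h2
    exact h2.trans Finset.card_le_two
  rw [htop, finrank_top, Module.finrank_fin_fun] at h1
  omega

end Pool.Agent.Results.MP_336050_an.NoMinimalTuple
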